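import Pool.Agent.K.MP_e9ee98_al.C2

open Pool.Agent.P.MP_e9ee98_al in
theorem Pool.Agent.Results.MP_e9ee98_al.TwistedProj.result :
    ∀ (ι : Type) (G : ι → Type) [∀ i, Group (G i)], (∀ i, Potent (G i)) →
      (∀ s : Finset (Σ i, G i), (∀ m ∈ s, m.2 ≠ 1) → ∀ N : ℕ,
        ∃ (p q : ℕ) (_ : Fact p.Prime), q.Prime ∧ N < q ∧
          ∀ i, Surv p q (G i) {g | (⟨i, g⟩ : Σ i, G i) ∈ s}) →
      Potent (Monoid.CoprodI G) :=
  fun _ _ _ h1 h2 => potent_twisted h1 h2
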